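import Pool.Agent.H42.TS.Fac

/-!
# CLT for stationary Markov chains under square summable forward and backward projections

The chain is a two-sided stationary process `(ξ_n)_{n ∈ ℤ}` on an arbitrary measurable state
space. No transition kernel is assumed: the Markov property and the two summability conditions are
stated with conditional expectations of the process,
`Q^k f(ξ_0) = E[f(ξ_k) | ξ_0]` and `(Q^*)^k f(ξ_0) = E[f(ξ_{-k}) | ξ_0]`.
-/

set_option autoImplicit false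

open MeasureTheory ProbabilityTheory Filter
open scoped Topology

namespace Pool.Agent.Results.MP_bedcbf_pr.TwoSidedProcess

/-- **Positive answer to Q1.** Let `(ξ_n)_{n ∈ ℤ}` be a stationary ergodic Markov chain on a
measurable space `S`, let `f(ξ_0)` be square integrable with mean zero, and suppose that
`∑_{k ≥ 1} ‖E[f(ξ_k) | ξ_0]‖² < ∞` and `∑_{k ≥ 1} ‖E[f(ξ_{-k}) | ξ_0]‖² < ∞`. Then
`n^{-1/2} ∑_{k=1}^n f(ξ_k)` converges in distribution to a centred normal law `N(0, σ²)`, where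
`σ² = E f(ξ_0)² + 2 ∑_{k ≥ 1} E f(ξ_0) f(ξ_k) = lim_n E (∑_{k=1}^n f(ξ_k))² / n`. -/
theorem result
    {S : Type} [mS : MeasurableSpace S] {Ω : Type} [MeasurableSpace Ω]
    (P : Measure Ω) [IsProbabilityMeasure P]
    -- the process
    (ξ : ℤ → Ω → S) (hξ : ∀ n, Measurable (ξ n))
    -- stationary and ergodic: the shift preserves the law of the process and is ergodic
    (hergodic : Ergodic (fun (p : ℤ → S) (n : ℤ) => p (n + 1)) (P.map fun ω n => ξ n ω))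
    -- the Markov property
    (hmarkov : ∀ (n : ℤ) (A : Set S), MeasurableSet A →
      P⟦ξ (n + 1) ⁻¹' A|⨆ i ≤ n, mS.comap (ξ i)⟧ =ᵐ[P] P⟦ξ (n + 1) ⁻¹' A|mS.comap (ξ n)⟧)
    -- the function
    (f : S → ℝ) (hf : Measurable f) (hf2 : MemLp (fun ω => f (ξ 0 ω)) 2 P)
    (_hf0 : ∫ ω, f (ξ 0 ω) ∂P = 0)
    -- `∑_{k ≥ 1} ‖Q^k f‖² < ∞`
    (hforward : Summable fun k : ℕ =>
      ∫ ω, (P[fun ω => f (ξ ((k : ℤ) + 1) ω)|mS.comap (ξ 0)] ω) ^ 2 ∂P)
    -- `∑_{k ≥ 1} ‖(Q^*)^k f‖² < ∞`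
    (hbackward : Summable fun k : ℕ =>
      ∫ ω, (P[fun ω => f (ξ (-((k : ℤ) + 1)) ω)|mS.comap (ξ 0)] ω) ^ 2 ∂P) :
    ∃ σ2 : NNReal,
      TendstoInDistribution (fun (n : ℕ) ω => (√n)⁻¹ * ∑ k ∈ Finset.Icc 1 n, f (ξ k ω)) atTop
        (id : ℝ → ℝ) (fun _ => P) (gaussianReal 0 σ2) ∧
      HasSum (fun k : ℕ => 2 * ∫ ω, f (ξ 0 ω) * f (ξ ((k : ℤ) + 1) ω) ∂P)
        (σ2 - ∫ ω, f (ξ 0 ω) ^ 2 ∂P) ∧
      Tendsto (fun n : ℕ => (∫ ω, (∑ k ∈ Finset.Icc 1 n, f (ξ k ω)) ^ 2 ∂P) / n) atTop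
        (𝓝 (σ2 : ℝ)) := by
  have H : H42.TS.Stat mS P ξ := ⟨hξ, hergodic.toMeasurePreserving, hmarkov⟩
  obtain ⟨v, hs, hv⟩ := H42.TS.clt_gen H hergodic hf hf2 hforward hbackward
  have hSm : ∀ n : ℕ, Measurable (fun ω => (√n)⁻¹ * ∑ k ∈ Finset.Icc 1 n, f (ξ k ω)) := fun n =>
    (Finset.measurable_sum (Finset.Icc 1 n) fun (k : ℕ) _ => hf.comp (hξ (k : ℤ))).const_mul _
  refine ⟨v, ⟨fun n => (hSm n).aemeasurable, aemeasurable_id, ?_⟩, hs, ?_⟩
  · refine ProbabilityMeasure.tendsto_iff_forall_integral_tendsto.2 fun g => ?_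
    have h1 := hv g g.continuous ⟨‖g‖, fun x => g.norm_coe_le_norm x⟩
    have e0 : ∫ x, g x ∂((gaussianReal 0 v).map (id : ℝ → ℝ)) = ∫ x, g x ∂(gaussianReal 0 v) := by
      rw [Measure.map_id]
    have e1 : ∀ n : ℕ, ∫ x, g x ∂(P.map fun ω => (√n)⁻¹ * ∑ k ∈ Finset.Icc 1 n, f (ξ k ω))
        = ∫ ω, g ((√n)⁻¹ * ∑ k ∈ Finset.Icc 1 n, f (ξ k ω)) ∂P := fun n =>
      integral_map (hSm n).aemeasurable g.continuous.aestronglyMeasurable
    show Tendsto (fun n : ℕ => ∫ x, g x ∂(P.map fun ω => (√n)⁻¹ * ∑ k ∈ Finset.Icc 1 n, f (ξ k ω)))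
      atTop (𝓝 (∫ x, g x ∂((gaussianReal 0 v).map (id : ℝ → ℝ))))
    rw [e0]
    simp only [e1]
    exact h1
  · have hY : ∀ n : ℕ, MemLp (fun ω => f (ξ ((n : ℤ) + 1) ω)) 2 P := fun n => H.memLp_n hf hf2 _
    have hc : ∀ i k : ℕ, ∫ ω, f (ξ ((i : ℤ) + 1) ω) * f (ξ (((i + k : ℕ) : ℤ) + 1) ω) ∂P
        = ∫ ω, f (ξ 0 ω) * f (ξ (k : ℤ) ω) ∂P := by
      intro i k
      have hp := H42.TS.pair_law H.meas H.pres ((i : ℤ) + 1) 0 k
      have hm : AEStronglyMeasurable (fun p : S × S => f p.1 * f p.2)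
          (P.map (fun ω => (ξ 0 ω, ξ k ω))) :=
        ((hf.comp measurable_fst).mul (hf.comp measurable_snd)).aestronglyMeasurable
      have i1 := integral_map (μ := P) ((hξ 0).prodMk (hξ k)).aemeasurable hm
      rw [← hp] at hm
      have i2 := integral_map (μ := P)
        ((hξ ((i : ℤ) + 1 + 0)).prodMk (hξ ((i : ℤ) + 1 + k))).aemeasurable hm
      rw [← hp, i2] at i1
      simp only [add_zero] at i1
      rw [← i1]
      push_cast
      rw [show (i : ℤ) + k + 1 = (i : ℤ) + 1 + k by ring]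
    have hlim := H42.TS.tendsto_var (P := P) (fun n ω => f (ξ ((n : ℤ) + 1) ω)) hY
      (fun k => ∫ ω, f (ξ 0 ω) * f (ξ (k : ℤ) ω) ∂P) hc v (by
        have e0 : ∫ ω, f (ξ 0 ω) * f (ξ ((0 : ℕ) : ℤ) ω) ∂P = ∫ ω, f (ξ 0 ω) ^ 2 ∂P :=
          integral_congr_ae (Eventually.of_forall fun ω => by simp only [Nat.cast_zero]; ring)
        rw [e0]
        push_cast
        exact hs)
    refine hlim.congr fun n => ?_
    have hsum : ∀ (a : ℕ → ℝ) (n : ℕ),
        ∑ i ∈ Finset.range n, a (i + 1) = ∑ i ∈ Finset.Icc 1 n, a i := by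
      intro a n
      induction n with
      | zero => simp
      | succ n ih => rw [Finset.sum_range_succ, ih, Finset.sum_Icc_succ_top (by omega)]
    congr 1
    refine integral_congr_ae (Eventually.of_forall fun ω => ?_)
    have := hsum (fun i => f (ξ (i : ℤ) ω)) n
    push_cast at this
    simp only
    rw [this]

end Pool.Agent.Results.MP_bedcbf_pr.TwoSidedProcess
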